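import Mathlib

/-!
Gauss sums of quadratic forms over the field with two elements: if a totally singular family `H`
has a totally isotropic orthogonal space, then the Gauss sum is nonnegative.
-/

open Finset

namespace Run7.h709

theorem zmod2_cases (x : ZMod 2) : x = 0 ∨ x = 1 := by
  fin_cases x
  · left; rfl
  · right; rfl

theorem gauss_nonneg {E : Type*} [AddCommGroup E] [DecidableEq E]
    (hchar : ∀ f : E, f + f = 0) (χ : E → ℤ) (b : E → E → ZMod 2)
    (hbl : ∀ f g h, b (f + g) h = b f h + b g h)
    (hχ : ∀ f g, χ (f + g) = χ f * χ g * (-1) ^ (b f g).val)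
    (hχ1 : ∀ f, χ f = 1 ∨ χ f = -1)
    (M : Finset E) (hM : ∀ f ∈ M, ∀ g ∈ M, f + g ∈ M)
    (H : Finset E) (hHM : ∀ h ∈ H, h ∈ M) (hH1 : ∀ h ∈ H, χ h = 1)
    (hHH : ∀ h ∈ H, ∀ h' ∈ H, b h h' = 0)
    (hself : ∀ f ∈ M, ∀ g ∈ M, (∀ h ∈ H, b f h = 0) → (∀ h ∈ H, b g h = 0) → b f g = 0) :
    0 ≤ ∑ f ∈ M, χ f := by
  classical
  -- restrict to the orthogonal space of `H`
  have key : ∀ T : Finset E, T ⊆ H →
      ∑ f ∈ M, χ f = ∑ f ∈ M.filter (fun f => ∀ h ∈ T, b f h = 0), χ f := by
    intro T
    induction T using Finset.induction_on with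
    | empty => intro _; simp
    | insert h T hh ih =>
      intro hT
      rw [ih (fun x hx => hT (Finset.mem_insert_of_mem hx))]
      have hhH : h ∈ H := hT (Finset.mem_insert_self h T)
      rw [← Finset.sum_filter_add_sum_filter_not _ (fun f => b f h = 0)]
      have h1 : ∑ f ∈ (M.filter (fun f => ∀ h ∈ T, b f h = 0)).filter (fun f => ¬ b f h = 0),
          χ f = 0 := by
        apply Finset.sum_involution (fun f _ => f + h)
        · intro f hf
          rw [Finset.mem_filter, Finset.mem_filter] at hf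
          have hb1 : b f h = 1 := by
            rcases zmod2_cases (b f h) with h0 | h0
            · exact absurd h0 hf.2
            · exact h0
          rw [hχ, hH1 h hhH, hb1]
          have : (1 : ZMod 2).val = 1 := rfl
          rw [this]
          ring
        · intro f hf hne heq
          have h2 : h = 0 := by
            have : f + h = f + 0 := by rw [heq, add_zero]
            exact add_left_cancel this
          rw [Finset.mem_filter] at hf
          apply hf.2
          have h3 := hχ f 0
          rw [add_zero] at h3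
          have h4 := hχ 0 0
          rw [h2] at hhH ⊢
          rw [hH1 0 hhH] at h3
          rcases zmod2_cases (b f 0) with h0 | h0
          · exact h0
          · rw [h0] at h3
            have h5 : (1 : ZMod 2).val = 1 := rfl
            rw [h5] at h3
            rcases hχ1 f with h6 | h6 <;> rw [h6] at h3 <;> norm_num at h3
        · intro f hf
          rw [Finset.mem_filter, Finset.mem_filter] at hf ⊢
          refine ⟨⟨hM f hf.1.1 h (hHM h hhH), ?_⟩, ?_⟩
          · intro h' hh'
            rw [hbl, hf.1.2 h' hh', hHH h hhH h' (hT (Finset.mem_insert_of_mem hh')), add_zero]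
          · rw [hbl, hHH h hhH h hhH, add_zero]
            exact hf.2
        · intro f hf
          rw [add_assoc, hchar, add_zero]
      rw [h1, add_zero, Finset.filter_filter]
      refine Finset.sum_congr ?_ fun _ _ => rfl
      ext f
      simp only [Finset.mem_filter, Finset.mem_insert, forall_eq_or_imp]
      tauto
  rw [key H (Finset.Subset.refl H)]
  set U := M.filter (fun f => ∀ h ∈ H, b f h = 0) with hU
  have hUadd : ∀ f ∈ U, ∀ g ∈ U, f + g ∈ U := by
    intro f hf g hg
    rw [hU, Finset.mem_filter] at hf hg ⊢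
    refine ⟨hM f hf.1 g hg.1, fun h hh => ?_⟩
    rw [hbl, hf.2 h hh, hg.2 h hh, add_zero]
  have hUmul : ∀ f ∈ U, ∀ g ∈ U, χ (f + g) = χ f * χ g := by
    intro f hf g hg
    rw [hU, Finset.mem_filter] at hf hg
    rw [hχ, hself f hf.1 g hg.1 hf.2 hg.2]
    simp
  by_cases hall : ∀ f ∈ U, χ f = 1
  · exact Finset.sum_nonneg fun f hf => by rw [hall f hf]; norm_num
  · push Not at hall
    obtain ⟨f0, hf0, hne⟩ := hall
    have hm1 : χ f0 = -1 := by
      rcases hχ1 f0 with h | h
      · exact absurd h hne
      · exact h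
    have hsum : ∑ f ∈ U, χ f = ∑ f ∈ U, χ (f + f0) := by
      refine Finset.sum_nbij' (fun f => f + f0) (fun f => f + f0) ?_ ?_ ?_ ?_ ?_
      · intro f hf; exact hUadd f hf f0 hf0
      · intro f hf; exact hUadd f hf f0 hf0
      · intro f _; simp only [add_assoc, hchar, add_zero]
      · intro f _; simp only [add_assoc, hchar, add_zero]
      · intro f _; simp only [add_assoc, hchar, add_zero]
    have h2 : ∑ f ∈ U, χ (f + f0) = - ∑ f ∈ U, χ f := by
      rw [← Finset.sum_neg_distrib]
      refine Finset.sum_congr rfl fun f hf => ?_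
      rw [hUmul f hf f0 hf0, hm1]
      ring
    linarith

/-- The weight of a binary vector. -/
def wt {κ : Type*} [Fintype κ] (g : κ → ZMod 2) : ℕ := ∑ j, (g j).val

/-- The even part and the odd part of the Gauss sum of a block. -/
noncomputable def SS (q : ℕ) (ε : ZMod 2) : ℤ :=
  ∑ g ∈ (Finset.univ : Finset (Fin q → ZMod 2)).filter (fun g => ∑ j, g j = ε),
    (-1) ^ (wt g / 2)

theorem wt_cast {κ : Type*} [Fintype κ] (g : κ → ZMod 2) : (wt g : ZMod 2) = ∑ j, g j := by
  unfold wt
  push_cast
  refine Finset.sum_congr rfl fun j _ => ?_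
  simp

theorem SS_complex (q : ℕ) :
    ((SS q 0 : ℤ) : ℂ) + Complex.I * ((SS q 1 : ℤ) : ℂ) = (1 + Complex.I) ^ q := by
  have h1 : (1 + Complex.I) ^ q = ∑ g : Fin q → ZMod 2, Complex.I ^ wt g := by
    have h2 : (1 + Complex.I) ^ q = ∏ _j : Fin q, ∑ b : ZMod 2, Complex.I ^ b.val := by
      rw [Finset.prod_const, Finset.card_univ, Fintype.card_fin]
      congr 1
      have : (Finset.univ : Finset (ZMod 2)) = {0, 1} := rfl
      rw [this, Finset.sum_pair (by decide)]
      have h3 : (1 : ZMod 2).val = 1 := rfl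
      have h4 : (0 : ZMod 2).val = 0 := rfl
      rw [h3, h4]
      simp
    rw [h2, Finset.prod_univ_sum]
    simp only [Fintype.piFinset_univ]
    refine Finset.sum_congr rfl fun g _ => ?_
    rw [wt, Finset.prod_pow_eq_pow_sum]
  rw [h1, ← Finset.sum_filter_add_sum_filter_not _ (fun g : Fin q → ZMod 2 => ∑ j, g j = 0)]
  have h5 : (Finset.univ.filter (fun g : Fin q → ZMod 2 => ¬ ∑ j, g j = 0))
      = Finset.univ.filter (fun g : Fin q → ZMod 2 => ∑ j, g j = 1) := by
    ext g
    simp only [Finset.mem_filter, Finset.mem_univ, true_and]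
    rcases zmod2_cases (∑ j, g j) with h0 | h0 <;> rw [h0] <;> decide
  rw [h5]
  unfold SS
  push_cast
  rw [Finset.mul_sum]
  congr 1
  · refine Finset.sum_congr rfl fun g hg => ?_
    rw [Finset.mem_filter, ← wt_cast, ZMod.natCast_eq_zero_iff] at hg
    obtain ⟨k, hk⟩ := hg.2
    rw [hk, pow_mul, Complex.I_sq, Nat.mul_div_cancel_left k (by norm_num)]
  · refine Finset.sum_congr rfl fun g hg => ?_
    rw [Finset.mem_filter, ← wt_cast] at hg
    have hodd : wt g % 2 = 1 := by
      have h7 := congrArg ZMod.val hg.2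
      rw [ZMod.val_natCast] at h7
      exact h7
    have h8 : wt g = 2 * (wt g / 2) + 1 := by omega
    conv_rhs => rw [h8, pow_succ, pow_mul, Complex.I_sq]
    ring

theorem SS_six (k : ℕ) : SS (8 * k + 6) 0 = 0 ∧ SS (8 * k + 6) 1 = -(8 * 16 ^ k) := by
  have h := SS_complex (8 * k + 6)
  have h2 : (1 + Complex.I) ^ (8 * k + 6) = ((-(8 * 16 ^ k) : ℤ) : ℂ) * Complex.I := by
    have e2 : (1 + Complex.I) ^ 2 = 2 * Complex.I := by
      ring_nf
      rw [Complex.I_sq]
      ring
    have e8 : (1 + Complex.I) ^ 8 = 16 := by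
      have : (1 + Complex.I) ^ 8 = ((1 + Complex.I) ^ 2) ^ 4 := by ring
      rw [this, e2, mul_pow]
      rw [show Complex.I ^ 4 = (Complex.I ^ 2) ^ 2 by ring, Complex.I_sq]
      norm_num
    have e6 : (1 + Complex.I) ^ 6 = -8 * Complex.I := by
      have : (1 + Complex.I) ^ 6 = ((1 + Complex.I) ^ 2) ^ 3 := by ring
      rw [this, e2, mul_pow]
      rw [show Complex.I ^ 3 = (Complex.I ^ 2) * Complex.I by ring, Complex.I_sq]
      norm_num
    rw [pow_add, pow_mul, e8, e6]
    push_cast
    ring
  rw [h2] at h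
  have hre := congrArg Complex.re h
  have him := congrArg Complex.im h
  simp only [Complex.add_re, Complex.mul_re, Complex.I_re, Complex.I_im, Complex.intCast_re,
    Complex.intCast_im, Complex.add_im, Complex.mul_im] at hre him
  constructor
  · have : ((SS (8 * k + 6) 0 : ℤ) : ℝ) = 0 := by linarith
    exact_mod_cast this
  · have : ((SS (8 * k + 6) 1 : ℤ) : ℝ) = ((-(8 * 16 ^ k) : ℤ) : ℝ) := by linarith
    exact_mod_cast this

end Run7.h709
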