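import Mathlib

/-!
The matrix identities for a pseudo-geometric graph with parameters `(q^2+1, q+1, 1)`, over `ℤ`.
-/

open Finset

namespace Run7.h709

variable {V : Type*} [Fintype V] [DecidableEq V]

/-- Kronecker delta with integer values. -/
def dl (x y : V) : ℤ := if x = y then 1 else 0

/-- The adjacency data of a pseudo-geometric graph `(q^2+1, q+1, 1)`. -/
structure PG (A : V → V → ℤ) (q : ℤ) : Prop where
  zero_one : ∀ x y, A x y = 0 ∨ A x y = 1
  symm : ∀ x y, A x y = A y x
  diag : ∀ x, A x x = 0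
  card : (Fintype.card V : ℤ) = (q + 1) * (q ^ 3 + 1)
  deg : ∀ x, ∑ y, A x y = q * (q ^ 2 + 1)
  sq : ∀ x z, ∑ y, A x y * A y z
    = (q ^ 2 + 1) + (q - 1) * (q ^ 2 + 1) * dl x z + (q - 2 - q ^ 2) * A x z

/-- The Gram matrix of the (scaled) projections on the least eigenspace. -/
def gm (A : V → V → ℤ) (q : ℤ) (x y : V) : ℤ := (q ^ 2 - 1) * dl x y - (q + 1) * A x y + 1

omit [Fintype V] in
theorem dl_self (x : V) : dl x x = 1 := by simp [dl]

omit [Fintype V] in
theorem dl_ne {x y : V} (h : x ≠ y) : dl x y = 0 := by simp [dl, h]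

omit [Fintype V] in
theorem dl_symm (x y : V) : dl x y = dl y x := by simp [dl, eq_comm]

theorem sum_dl_mul (x : V) (f : V → ℤ) : ∑ y, dl x y * f y = f x := by
  simp [dl]

theorem sum_mul_dl (x : V) (f : V → ℤ) : ∑ y, f y * dl y x = f x := by
  simp [dl]

theorem sum_dl (x : V) : ∑ y, dl x y = 1 := by
  simp [dl]

section
variable {A : V → V → ℤ} {q : ℤ}

theorem gm_symm (h : PG A q) (x y : V) : gm A q x y = gm A q y x := by
  simp only [gm, h.symm x y, dl_symm x y]

theorem gm_self (h : PG A q) (x : V) : gm A q x x = q ^ 2 := by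
  simp only [gm, h.diag, dl_self]; ring

theorem gm_adj (h : PG A q) {x y : V} (hA : A x y = 1) : gm A q x y = -q := by
  have hne : x ≠ y := by
    rintro rfl
    rw [h.diag] at hA
    norm_num at hA
  simp only [gm, hA, dl_ne hne]; ring

omit [Fintype V] in
theorem gm_nadj {x y : V} (hne : x ≠ y) (hA : A x y = 0) : gm A q x y = 1 := by
  simp only [gm, hA, dl_ne hne]; ring

theorem gm_sq (h : PG A q) (x z : V) :
    ∑ y, gm A q x y * gm A q y z = q * (q + 1) ^ 2 * gm A q x z := by
  have key : ∀ y, gm A q x y * gm A q y z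
      = (q ^ 2 - 1) * (dl x y * gm A q y z) - (q + 1) * (q ^ 2 - 1) * (A x y * dl y z)
        + (q + 1) ^ 2 * (A x y * A y z) - (q + 1) * A x y
        + (q ^ 2 - 1) * (dl z y) - (q + 1) * A z y + 1 := by
    intro y
    rw [h.symm z y, dl_symm z y]
    simp only [gm]
    ring
  simp only [key, Finset.sum_add_distrib, Finset.sum_sub_distrib,
    ← Finset.mul_sum, sum_dl_mul, sum_mul_dl, h.sq, h.deg, sum_dl]
  rw [Finset.sum_const, Finset.card_univ, nsmul_eq_mul, h.card]
  simp only [gm]
  ring

theorem gm_cube (h : PG A q) (x y : V) :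
    gm A q x y ^ 3 = (q ^ 6 - 1) * dl x y - (q ^ 3 + 1) * A x y + 1 := by
  by_cases hxy : x = y
  · subst hxy
    rw [gm_self h, h.diag, dl_self]; ring
  · rcases h.zero_one x y with h0 | h1
    · rw [gm_nadj hxy h0, h0, dl_ne hxy]; ring
    · rw [gm_adj h h1, h1, dl_ne hxy]; ring

theorem sum_gm_cube (h : PG A q) (x : V) : ∑ y, gm A q x y ^ 3 = 0 := by
  simp_rw [gm_cube h, Finset.sum_add_distrib, Finset.sum_sub_distrib, ← Finset.mul_sum,
    h.deg, sum_dl]
  rw [Finset.sum_const, Finset.card_univ, nsmul_eq_mul, h.card]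
  ring

/-- The trilinear form on the least eigenspace vanishes. -/
theorem tri (h : PG A q) (x y z : V) :
    ∑ w, gm A q x w * gm A q y w * gm A q z w = 0 := by
  set t : V → V → V → ℤ := fun x y z => ∑ w, gm A q x w * gm A q y w * gm A q z w with ht
  have key : ∑ x, ∑ y, ∑ z, t x y z ^ 2 = 0 := by
    have h1 : ∀ x y z, t x y z ^ 2 = ∑ w, ∑ w', (gm A q x w * gm A q x w') *
        (gm A q y w * gm A q y w') * (gm A q z w * gm A q z w') := by
      intro x y z
      rw [sq, ht, Finset.sum_mul_sum]
      refine Finset.sum_congr rfl fun w _ => Finset.sum_congr rfl fun w' _ => ?_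
      ring
    have h2 : ∀ w w', ∑ x, gm A q x w * gm A q x w' = q * (q + 1) ^ 2 * gm A q w w' := by
      intro w w'
      rw [← gm_sq h]
      refine Finset.sum_congr rfl fun x _ => ?_
      rw [gm_symm h x w]
    calc ∑ x, ∑ y, ∑ z, t x y z ^ 2
        = ∑ x, ∑ y, ∑ w, ∑ w', (gm A q x w * gm A q x w') *
          (gm A q y w * gm A q y w') * (∑ z, gm A q z w * gm A q z w') := by
          refine Finset.sum_congr rfl fun x _ => Finset.sum_congr rfl fun y _ => ?_
          simp_rw [h1]
          rw [Finset.sum_comm]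
          refine Finset.sum_congr rfl fun w _ => ?_
          rw [Finset.sum_comm]
          refine Finset.sum_congr rfl fun w' _ => ?_
          rw [Finset.mul_sum]
      _ = ∑ x, ∑ w, ∑ w', (gm A q x w * gm A q x w') *
          (∑ y, gm A q y w * gm A q y w') * (∑ z, gm A q z w * gm A q z w') := by
          refine Finset.sum_congr rfl fun x _ => ?_
          rw [Finset.sum_comm]
          refine Finset.sum_congr rfl fun w _ => ?_
          rw [Finset.sum_comm]
          refine Finset.sum_congr rfl fun w' _ => ?_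
          rw [← Finset.sum_mul, ← Finset.mul_sum]
      _ = ∑ w, ∑ w', (∑ x, gm A q x w * gm A q x w') *
          (∑ y, gm A q y w * gm A q y w') * (∑ z, gm A q z w * gm A q z w') := by
          rw [Finset.sum_comm]
          refine Finset.sum_congr rfl fun w _ => ?_
          rw [Finset.sum_comm]
          refine Finset.sum_congr rfl fun w' _ => ?_
          rw [← Finset.sum_mul, ← Finset.sum_mul]
      _ = ∑ w, (q * (q + 1) ^ 2) ^ 3 * ∑ w', gm A q w w' ^ 3 := by
          refine Finset.sum_congr rfl fun w _ => ?_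
          rw [Finset.mul_sum]
          refine Finset.sum_congr rfl fun w' _ => ?_
          rw [h2]
          ring
      _ = 0 := by
          simp_rw [sum_gm_cube h]
          simp
  have k1 := (Finset.sum_eq_zero_iff_of_nonneg (fun x _ => Finset.sum_nonneg fun y _ =>
    Finset.sum_nonneg fun z _ => sq_nonneg (t x y z))).1 key x (Finset.mem_univ x)
  have k2 := (Finset.sum_eq_zero_iff_of_nonneg (fun y _ =>
    Finset.sum_nonneg fun z _ => sq_nonneg (t x y z))).1 k1 y (Finset.mem_univ y)
  have k3 := (Finset.sum_eq_zero_iff_of_nonneg (fun z _ => sq_nonneg (t x y z))).1 k2 z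
    (Finset.mem_univ z)
  exact pow_eq_zero_iff (two_ne_zero) |>.1 k3

end

end Run7.h709
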