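import Mathlib
import Pool.Agent.Run7.h709.Krein

/-!
Local structure of a pseudo-geometric graph with parameters `(q^2+1, q+1, 1)` at a vertex.
-/

set_option linter.unusedSectionVars false

open Finset

namespace Run7.h709

variable {V : Type*} [Fintype V] [DecidableEq V] {A : V → V → ℤ} {q : ℤ}

/-- The number of common neighbours of three distinct vertices. -/
theorem triple (h : PG A q) {x y z : V} (hxy : x ≠ y) (hxz : x ≠ z) (hyz : y ≠ z) :
    (q + 1) ^ 3 * ∑ w, A x w * A y w * A z w
    = (q ^ 2 - 1) * ((1 - (q + 1) * A x y) * (1 - (q + 1) * A x z)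
      + (1 - (q + 1) * A x y) * (1 - (q + 1) * A y z)
      + (1 - (q + 1) * A x z) * (1 - (q + 1) * A y z))
      + (q + 1) * (q ^ 3 + 1) - 3 * (q + 1) * (q * (q ^ 2 + 1))
      + (q + 1) ^ 2 * (3 * (q ^ 2 + 1) + (q - 2 - q ^ 2) * (A x y + A x z + A y z)) := by
  have ht := tri h x y z
  have key : ∀ w, gm A q x w * gm A q y w * gm A q z w
      = (q ^ 2 - 1) * (dl x w * (gm A q y w * gm A q z w))
        + (q ^ 2 - 1) * (dl y w * ((1 - (q + 1) * A x w) * gm A q z w))
        + (q ^ 2 - 1) * (dl z w * ((1 - (q + 1) * A x w) * (1 - (q + 1) * A y w)))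
        + 1 - (q + 1) * A x w - (q + 1) * A y w - (q + 1) * A z w
        + (q + 1) ^ 2 * (A x w * A w y) + (q + 1) ^ 2 * (A x w * A w z)
        + (q + 1) ^ 2 * (A y w * A w z)
        - (q + 1) ^ 3 * (A x w * A y w * A z w) := by
    intro w
    rw [h.symm w y, h.symm w z]
    simp only [gm]
    ring
  simp only [key, Finset.sum_add_distrib, Finset.sum_sub_distrib,
    ← Finset.mul_sum, sum_dl_mul, h.sq, h.deg] at ht
  rw [Finset.sum_const, Finset.card_univ, nsmul_eq_mul, h.card] at ht
  simp only [gm, h.symm y x, h.symm z x, h.symm z y, dl_ne hxy, dl_ne hxz, dl_ne hyz,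
    dl_ne hxy.symm, dl_ne hxz.symm, dl_ne hyz.symm] at ht
  linear_combination -ht

theorem pos_ne {q : ℤ} (hq : 1 ≤ q) : (q + 1) ≠ 0 := by omega

/-- Two nonadjacent neighbours of `o` have no common neighbour that is adjacent to `o`. -/
theorem no_common (h : PG A q) (hq : 1 ≤ q) {o y z : V} (hoy : A o y = 1) (hoz : A o z = 1)
    (hyz : y ≠ z) (hA : A y z = 0) (w : V) : A o w * A y w * A z w = 0 := by
  have ne : ∀ {a b : V}, A a b = 1 → a ≠ b := by
    rintro a b hab rfl
    rw [h.diag] at hab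
    norm_num at hab
  have ht := triple h (ne hoy) (ne hoz) hyz
  rw [hoy, hoz, hA] at ht
  have h1 : (q + 1) ^ 3 * ∑ w, A o w * A y w * A z w = 0 := by
    rw [ht]; ring
  have h2 : ∑ w, A o w * A y w * A z w = 0 := by
    rcases mul_eq_zero.1 h1 with h3 | h3
    · exact absurd h3 (pow_ne_zero _ (pos_ne hq))
    · exact h3
  refine (Finset.sum_eq_zero_iff_of_nonneg fun w _ => ?_).1 h2 w (Finset.mem_univ w)
  rcases h.zero_one o w with a | a <;> rcases h.zero_one y w with b | b <;>
    rcases h.zero_one z w with c | c <;> rw [a, b, c] <;> norm_num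

/-- Adjacency is transitive on the neighbours of a vertex. -/
theorem adj_trans (h : PG A q) (hq : 1 ≤ q) {o y w z : V} (hoy : A o y = 1) (how : A o w = 1)
    (hoz : A o z = 1) (hyw : A y w = 1) (hwz : A w z = 1) (hyz : y ≠ z) : A y z = 1 := by
  rcases h.zero_one y z with h0 | h1
  · have := no_common h hq hoy hoz hyz h0 w
    rw [how, hyw, h.symm z w, hwz] at this
    norm_num at this
  · exact h1

/-- The number of common neighbours of a vertex `o` and two vertices at distance two from it is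
odd for even `q`. -/
theorem triple_odd (h : PG A q) (hq : 1 ≤ q) (hev : Even q) {o y z : V} (ho : o ≠ y) (ho' : o ≠ z)
    (hyz : y ≠ z) (hoy : A o y = 0) (hoz : A o z = 0) :
    Odd (∑ w, A o w * A y w * A z w) := by
  have ht := triple h ho ho' hyz
  rw [hoy, hoz] at ht
  rcases h.zero_one y z with h0 | h1
  · rw [h0] at ht
    have h3 : (q + 1) ^ 3 * ∑ w, A o w * A y w * A z w = (q + 1) ^ 3 * (q + 1) := by
      rw [ht]; ring
    rw [mul_left_cancel₀ (pow_ne_zero 3 (pos_ne hq)) h3]
    exact hev.add_one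
  · rw [h1] at ht
    have h3 : (q + 1) ^ 3 * ∑ w, A o w * A y w * A z w = (q + 1) ^ 3 * 1 := by
      rw [ht]; ring
    rw [mul_left_cancel₀ (pow_ne_zero 3 (pos_ne hq)) h3]
    exact odd_one

/-- The matrix `gm` applied to a vector. -/
def G (A : V → V → ℤ) (q : ℤ) (c : V → ℤ) (y : V) : ℤ := ∑ x, gm A q y x * c x

theorem triG (h : PG A q) (c d e : V → ℤ) :
    ∑ y, G A q c y * G A q d y * G A q e y = 0 := by
  have h1 : ∀ y, G A q c y * G A q d y * G A q e y
      = ∑ x, ∑ x', ∑ x'', (c x * d x' * e x'') * (gm A q x y * gm A q x' y * gm A q x'' y) := by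
    intro y
    unfold G
    rw [Finset.sum_mul_sum, Finset.sum_mul]
    refine Finset.sum_congr rfl fun x _ => ?_
    rw [Finset.sum_mul]
    refine Finset.sum_congr rfl fun x' _ => ?_
    rw [Finset.mul_sum]
    refine Finset.sum_congr rfl fun x'' _ => ?_
    rw [gm_symm h y x, gm_symm h y x', gm_symm h y x'']
    ring
  simp_rw [h1]
  rw [Finset.sum_comm]
  refine Finset.sum_eq_zero fun x _ => ?_
  rw [Finset.sum_comm]
  refine Finset.sum_eq_zero fun x' _ => ?_
  rw [Finset.sum_comm]
  refine Finset.sum_eq_zero fun x'' _ => ?_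
  rw [← Finset.mul_sum, tri h, mul_zero]

theorem innerG (h : PG A q) (c d : V → ℤ) :
    ∑ y, G A q c y * G A q d y = q * (q + 1) ^ 2 * ∑ x, c x * G A q d x := by
  have h1 : ∀ y, G A q c y * G A q d y
      = ∑ x, ∑ x', (c x * d x') * (gm A q x y * gm A q y x') := by
    intro y
    unfold G
    rw [Finset.sum_mul_sum]
    refine Finset.sum_congr rfl fun x _ => ?_
    refine Finset.sum_congr rfl fun x' _ => ?_
    rw [gm_symm h y x]
    ring
  simp_rw [h1]
  rw [Finset.sum_comm, Finset.mul_sum]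
  refine Finset.sum_congr rfl fun x _ => ?_
  rw [Finset.sum_comm]
  unfold G
  rw [Finset.mul_sum, Finset.mul_sum]
  refine Finset.sum_congr rfl fun x' _ => ?_
  rw [← Finset.mul_sum, gm_sq h]
  ring

/-- Parity consequence of the vanishing of the cubic form. -/
theorem eight_dvd {a b : V → ℤ} (ha : ∀ y, Even (a y)) (hb : ∀ y, Even (b y))
    (h3 : ∑ y, a y * a y * b y = 0) : (8 : ℤ) ∣ ∑ y, a y * b y := by
  choose a' ha' using fun y => (ha y).two_dvd
  choose b' hb' using fun y => (hb y).two_dvd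
  have h1 : ∑ y, a' y * a' y * b' y = 0 := by
    have : ∑ y, a y * a y * b y = 8 * ∑ y, a' y * a' y * b' y := by
      rw [Finset.mul_sum]
      refine Finset.sum_congr rfl fun y _ => ?_
      rw [ha', hb']; ring
    rw [this] at h3
    omega
  have h2 : (2 : ℤ) ∣ ∑ y, a' y * b' y := by
    have : ∑ y, a' y * b' y = ∑ y, (a' y * b' y - a' y * a' y * b' y) := by
      rw [Finset.sum_sub_distrib, h1, sub_zero]
    rw [this]
    refine Finset.dvd_sum fun y _ => ?_
    have : a' y * b' y - a' y * a' y * b' y = b' y * (a' y * (1 - a' y)) := by ring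
    rw [this]
    apply Dvd.dvd.mul_left
    rcases Int.even_or_odd (a' y) with he | he
    · exact Dvd.dvd.mul_right he.two_dvd _
    · obtain ⟨k, hk⟩ := he
      exact Dvd.dvd.mul_left ⟨-k, by rw [hk]; ring⟩ _
  obtain ⟨k, hk⟩ := h2
  refine ⟨k, ?_⟩
  have : ∑ y, a y * b y = 4 * ∑ y, a' y * b' y := by
    rw [Finset.mul_sum]
    refine Finset.sum_congr rfl fun y _ => ?_
    rw [ha', hb']; ring
  rw [this, hk]; ring

/-- A parametrisation of the neighbours of `o` by the disjoint union of cliques. -/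
structure Blk (A : V → V → ℤ) {ι κ : Type*} (o : V) (p : ι → κ → V) : Prop where
  adj_o : ∀ i j, A o (p i j) = 1
  surj : ∀ z, A o z = 1 → ∃ i j, p i j = z
  inj : ∀ i j i' j', p i j = p i' j' → i = i' ∧ j = j'
  inside : ∀ i j j', j ≠ j' → A (p i j) (p i j') = 1
  outside : ∀ i i' j j', i ≠ i' → A (p i j) (p i' j') = 0

end Run7.h709
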