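import Mathlib
import Pool.Agent.Run7.h709.Local
import Pool.Agent.Run7.h709.Gauss

/-!
The core of the argument: the binary code of a vertex.
-/

set_option linter.unusedSectionVars false

open Finset

namespace Run7.h709

variable {V : Type*} [Fintype V] [DecidableEq V] {A : V → V → ℤ} {q : ℕ}
  {ι : Type*} [Fintype ι] [DecidableEq ι] {o : V} {p : ι → Fin q → V}

theorem ne_of_adj {Q : ℤ} (h : PG A Q) {a b : V} (hab : A a b = 1) : a ≠ b := by
  rintro rfl
  rw [h.diag] at hab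
  norm_num at hab

theorem gm_pp (h : PG A (q : ℤ)) (hB : Blk A o p) (i i' : ι) (j j' : Fin q) :
    gm A q (p i j) (p i' j') = ((q : ℤ) ^ 2 + q) * (dl i' i * dl j' j) - (q + 1) * dl i' i + 1 := by
  by_cases hi : i = i'
  · subst hi
    by_cases hj : j = j'
    · subst hj
      rw [gm_self h, dl_self, dl_self]; ring
    · rw [gm_adj h (hB.inside i j j' hj), dl_self, dl_ne (Ne.symm hj)]; ring
  · have hne : p i j ≠ p i' j' := fun he => hi (hB.inj _ _ _ _ he).1
    rw [gm_nadj hne (hB.outside i i' j j' hi), dl_ne (Ne.symm hi)]; ring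

theorem gm_po (h : PG A (q : ℤ)) (hB : Blk A o p) (i : ι) (j : Fin q) :
    gm A q (p i j) o = -q := by
  apply gm_adj h
  rw [h.symm]
  exact hB.adj_o i j

theorem gm_op (h : PG A (q : ℤ)) (hB : Blk A o p) (i : ι) (j : Fin q) :
    gm A q o (p i j) = -q := gm_adj h (hB.adj_o i j)

/-- The line through `o` with index `i` is annihilated by `gm`. -/
theorem line_zero (h : PG A (q : ℤ)) (hB : Blk A o p) (i : ι) (y : V) :
    gm A q y o + ∑ j, gm A q y (p i j) = 0 := by
  set c : V → ℤ := fun x => dl o x + ∑ j, dl (p i j) x with hc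
  have hG : ∀ y, G A q c y = gm A q y o + ∑ j, gm A q y (p i j) := by
    intro y
    unfold G
    rw [hc]
    simp only [mul_add, Finset.sum_add_distrib, Finset.mul_sum]
    rw [Finset.sum_comm]
    have h1 : ∑ x, gm A q y x * dl o x = gm A q y o := by
      simp_rw [dl_symm o]; exact sum_mul_dl o _
    have h2 : ∀ j, ∑ x, gm A q y x * dl (p i j) x = gm A q y (p i j) := by
      intro j
      simp_rw [dl_symm (p i j)]; exact sum_mul_dl (p i j) _
    rw [h1]
    simp_rw [h2]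
  have h0 : G A q c o = 0 := by
    rw [hG, gm_self h]
    simp_rw [gm_op h hB]
    rw [Finset.sum_const, Finset.card_univ, Fintype.card_fin, nsmul_eq_mul]
    ring
  have hp0 : ∀ j, G A q c (p i j) = 0 := by
    intro j
    rw [hG, gm_po h hB]
    simp_rw [gm_pp h hB, dl_self, one_mul, mul_one]
    rw [Finset.sum_add_distrib, Finset.sum_sub_distrib, ← Finset.mul_sum]
    have : ∑ x, dl x j = 1 := by simp_rw [dl_symm _ j]; exact sum_dl j
    rw [this]
    simp only [Finset.sum_const, Finset.card_univ, Fintype.card_fin, nsmul_eq_mul]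
    ring
  have hin := innerG h c c
  have h3 : ∑ x, c x * G A q c x = 0 := by
    have h4 : ∀ x, c x * G A q c x
        = dl o x * G A q c x + ∑ j, dl (p i j) x * G A q c x := by
      intro x
      have hcx : c x = dl o x + ∑ j, dl (p i j) x := rfl
      rw [hcx, add_mul, Finset.sum_mul]
    simp_rw [h4, Finset.sum_add_distrib]
    rw [Finset.sum_comm]
    simp_rw [sum_dl_mul, h0, hp0]
    simp
  rw [h3, mul_zero] at hin
  have h5 := (Finset.sum_eq_zero_iff_of_nonneg fun y _ => mul_self_nonneg (G A q c y)).1 hin y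
    (Finset.mem_univ y)
  rw [← hG]
  exact mul_self_eq_zero.1 h5

/-- A vertex at distance two from `o` has exactly one neighbour in each block. -/
theorem block_one (h : PG A (q : ℤ)) (hB : Blk A o p) (i : ι) {y : V} (hyo : o ≠ y)
    (hA : A o y = 0) : ∑ j, A y (p i j) = 1 := by
  have h1 := line_zero h hB i y
  rw [gm_nadj (Ne.symm hyo) (by rw [h.symm]; exact hA)] at h1
  have h2 : ∀ j, gm A q y (p i j) = 1 - (q + 1) * A y (p i j) := by
    intro j
    have hne : y ≠ p i j := by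
      intro he
      have := hB.adj_o i j
      rw [← he, hA] at this
      norm_num at this
    rw [gm, dl_ne hne]; ring
  simp_rw [h2, Finset.sum_sub_distrib, ← Finset.mul_sum] at h1
  simp only [Finset.sum_const, Finset.card_univ, Fintype.card_fin, nsmul_eq_mul] at h1
  have h3 : ((q : ℤ) + 1) * ∑ j, A y (p i j) = (q + 1) * 1 := by linarith
  exact mul_left_cancel₀ (by positivity) h3

/-- The vector on the vertices belonging to an integer vector on the neighbours of `o`. -/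
def cvec (o : V) (p : ι → Fin q → V) (φ : ι → Fin q → ℤ) (s : ℤ) (x : V) : ℤ :=
  ∑ i, ∑ j, φ i j * dl (p i j) x + ((q : ℤ) - 1) * s * dl o x

theorem sum_cvec (φ : ι → Fin q → ℤ) (s : ℤ) (f : V → ℤ) :
    ∑ x, cvec o p φ s x * f x = ∑ i, ∑ j, φ i j * f (p i j) + ((q : ℤ) - 1) * s * f o := by
  unfold cvec
  simp only [add_mul, Finset.sum_add_distrib, Finset.sum_mul]
  congr 1
  · rw [Finset.sum_comm]
    refine Finset.sum_congr rfl fun i _ => ?_
    rw [Finset.sum_comm]
    refine Finset.sum_congr rfl fun j _ => ?_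
    simp_rw [mul_assoc]
    rw [← Finset.mul_sum, sum_dl_mul]
  · simp_rw [mul_assoc]
    rw [← Finset.mul_sum, ← Finset.mul_sum, sum_dl_mul]

theorem G_cvec (φ : ι → Fin q → ℤ) (s : ℤ) (y : V) :
    G A q (cvec o p φ s) y
      = ∑ i, ∑ j, φ i j * gm A q y (p i j) + ((q : ℤ) - 1) * s * gm A q y o := by
  rw [← sum_cvec]
  unfold G
  exact Finset.sum_congr rfl fun x _ => mul_comm _ _

theorem G_cvec_p (h : PG A (q : ℤ)) (hB : Blk A o p) (hι : Fintype.card ι = q ^ 2 + 1)
    {φ : ι → Fin q → ℤ} {s : ℤ} (hφ : ∀ i, ∑ j, φ i j = s) (i : ι) (j : Fin q) :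
    G A q (cvec o p φ s) (p i j) = q * (q + 1) * φ i j := by
  rw [G_cvec, gm_po h hB]
  simp_rw [gm_pp h hB]
  have h1 : ∀ i' j', φ i' j' * (((q : ℤ) ^ 2 + q) * (dl i' i * dl j' j) - (q + 1) * dl i' i + 1)
      = ((q : ℤ) ^ 2 + q) * (dl i' i * (φ i' j' * dl j' j)) - (q + 1) * (dl i' i * φ i' j')
        + φ i' j' := by
    intro i' j'; ring
  simp_rw [h1, Finset.sum_add_distrib, Finset.sum_sub_distrib, ← Finset.mul_sum, sum_mul_dl, hφ,
    dl_symm _ i, sum_dl_mul]
  simp only [Finset.sum_const, Finset.card_univ, hι, nsmul_eq_mul]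
  push_cast
  ring

theorem G_cvec_o (h : PG A (q : ℤ)) (hB : Blk A o p) (hι : Fintype.card ι = q ^ 2 + 1)
    {φ : ι → Fin q → ℤ} {s : ℤ} (hφ : ∀ i, ∑ j, φ i j = s) :
    G A q (cvec o p φ s) o = - (q * (q + 1) * s) := by
  rw [G_cvec, gm_self h]
  simp_rw [gm_op h hB, ← Finset.sum_mul, hφ]
  simp only [Finset.sum_const, Finset.card_univ, hι, nsmul_eq_mul]
  push_cast
  ring

theorem G_cvec_y (h : PG A (q : ℤ)) (hB : Blk A o p) (hι : Fintype.card ι = q ^ 2 + 1)
    {φ : ι → Fin q → ℤ} {s : ℤ} (hφ : ∀ i, ∑ j, φ i j = s) {y : V} (hyo : o ≠ y)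
    (hA : A o y = 0) :
    G A q (cvec o p φ s) y
      = q * (q + 1) * s - (q + 1) * ∑ i, ∑ j, φ i j * A y (p i j) := by
  rw [G_cvec, gm_nadj (Ne.symm hyo) (by rw [h.symm]; exact hA)]
  have h2 : ∀ i j, gm A q y (p i j) = 1 - (q + 1) * A y (p i j) := by
    intro i j
    have hne : y ≠ p i j := by
      intro he
      have := hB.adj_o i j
      rw [← he, hA] at this
      norm_num at this
    rw [gm, dl_ne hne]; ring
  have h3 : ∀ i j, φ i j * gm A q y (p i j) = φ i j - (q + 1) * (φ i j * A y (p i j)) := by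
    intro i j; rw [h2]; ring
  simp_rw [h3, Finset.sum_sub_distrib, ← Finset.mul_sum, hφ]
  simp only [Finset.sum_const, Finset.card_univ, hι, nsmul_eq_mul]
  push_cast
  ring

/-- The inner product of two vectors in the least eigenspace, computed at `o`. -/
theorem inner_cvec (h : PG A (q : ℤ)) (hB : Blk A o p) (hι : Fintype.card ι = q ^ 2 + 1)
    {φ ψ : ι → Fin q → ℤ} {s s' : ℤ} (hψ : ∀ i, ∑ j, ψ i j = s') :
    ∑ y, G A q (cvec o p φ s) y * G A q (cvec o p ψ s') y
      = q ^ 2 * (q + 1) ^ 3 * (∑ i, ∑ j, φ i j * ψ i j - (q - 1) * (s * s')) := by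
  rw [innerG h, sum_cvec]
  simp_rw [G_cvec_p h hB hι hψ, G_cvec_o h hB hι hψ]
  have h1 : ∀ i j, φ i j * (q * (q + 1) * ψ i j) = q * ((q : ℤ) + 1) * (φ i j * ψ i j) := by
    intro i j; ring
  simp_rw [h1, ← Finset.mul_sum]
  ring

/-- Integrality: the orthogonal code is totally isotropic. -/
theorem isotropic (h : PG A (q : ℤ)) (hB : Blk A o p) (hι : Fintype.card ι = q ^ 2 + 1)
    (hq : q % 4 = 2) {φ ψ : ι → Fin q → ℤ} {s s' : ℤ} (hψ : ∀ i, ∑ j, ψ i j = s')
    (h1 : ∀ y, Even (G A q (cvec o p φ s) y)) (h2 : ∀ y, Even (G A q (cvec o p ψ s') y)) :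
    Even (∑ i, ∑ j, φ i j * ψ i j - (q - 1) * (s * s')) := by
  have h3 := triG h (cvec o p φ s) (cvec o p φ s) (cvec o p ψ s')
  have h4 := eight_dvd h1 h2 h3
  rw [inner_cvec h hB hι hψ] at h4
  set X := ∑ i, ∑ j, φ i j * ψ i j - (q - 1) * (s * s') with hX
  obtain ⟨u, hu⟩ : ∃ u : ℤ, (q : ℤ) = 4 * u + 2 := ⟨(q : ℤ) / 4, by omega⟩
  have h5 : Odd ((2 * u + 1) ^ 2 * ((q : ℤ) + 1) ^ 3) := by
    apply Odd.mul
    · exact Odd.pow ⟨u, rfl⟩
    · apply Odd.pow
      rw [hu]
      exact ⟨2 * u + 1, by ring⟩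
  have h6 : (8 : ℤ) ∣ 4 * ((2 * u + 1) ^ 2 * ((q : ℤ) + 1) ^ 3 * X) := by
    have : (q : ℤ) ^ 2 * (q + 1) ^ 3 * X = 4 * ((2 * u + 1) ^ 2 * ((q : ℤ) + 1) ^ 3 * X) := by
      have : (q : ℤ) ^ 2 = 4 * (2 * u + 1) ^ 2 := by rw [hu]; ring
      rw [this]; ring
    rwa [this] at h4
  have h7 : Even ((2 * u + 1) ^ 2 * ((q : ℤ) + 1) ^ 3 * X) := by
    rw [Int.even_iff]
    omega
  rcases Int.even_mul.1 h7 with h8 | h8
  · exact absurd h8 (Int.not_even_iff_odd.2 h5)
  · exact h8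

end Run7.h709
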