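import Mathlib
import Pool.Agent.Run7.h709.Core

/-!
The binary code of a vertex and its Gauss sum.
-/

set_option linter.unusedSectionVars false

open Finset

namespace Run7.h709

variable {V : Type*} [Fintype V] [DecidableEq V] {A : V → V → ℤ} {q : ℕ}
  {ι : Type*} [Fintype ι] [DecidableEq ι] {o : V} {p : ι → Fin q → V}

/-- The weight. -/
def wt2 (f : ι → Fin q → ZMod 2) : ℕ := ∑ i, wt (f i)

/-- The total sum. -/
def tot (f : ι → Fin q → ZMod 2) : ZMod 2 := ∑ i, ∑ j, f i j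

/-- The sign. -/
def chi (f : ι → Fin q → ZMod 2) : ℤ := (-1) ^ (wt2 f / 2)

/-- The bilinear form. -/
def bil (f g : ι → Fin q → ZMod 2) : ZMod 2 := ∑ i, ∑ j, f i j * g i j + tot f * tot g

theorem tot_add (f g : ι → Fin q → ZMod 2) : tot (f + g) = tot f + tot g := by
  simp [tot, Finset.sum_add_distrib]

theorem wt2_cast (f : ι → Fin q → ZMod 2) : (wt2 f : ZMod 2) = tot f := by
  unfold wt2 tot
  push_cast
  exact Finset.sum_congr rfl fun i _ => wt_cast _

theorem bil_add_left (f g h : ι → Fin q → ZMod 2) : bil (f + g) h = bil f h + bil g h := by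
  unfold bil
  rw [tot_add]
  simp only [Pi.add_apply, add_mul, Finset.sum_add_distrib]
  ring

theorem val_add_mul (a b : ZMod 2) : (a + b).val + 2 * (a * b).val = a.val + b.val := by
  rcases zmod2_cases a with h | h <;> rcases zmod2_cases b with h' | h' <;> rw [h, h'] <;> decide

theorem wt2_add (f g : ι → Fin q → ZMod 2) :
    wt2 (f + g) + 2 * ∑ i, ∑ j, (f i j * g i j).val = wt2 f + wt2 g := by
  unfold wt2 wt
  rw [Finset.mul_sum, ← Finset.sum_add_distrib, ← Finset.sum_add_distrib]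
  refine Finset.sum_congr rfl fun i _ => ?_
  rw [Finset.mul_sum, ← Finset.sum_add_distrib, ← Finset.sum_add_distrib]
  refine Finset.sum_congr rfl fun j _ => ?_
  exact val_add_mul _ _

theorem chi_add (f g : ι → Fin q → ZMod 2) :
    chi (f + g) = chi f * chi g * (-1) ^ (bil f g).val := by
  unfold chi
  have h1 := wt2_add f g
  set c := ∑ i, ∑ j, (f i j * g i j).val with hc
  have h2 : bil f g = ((c + wt2 f * wt2 g : ℕ) : ZMod 2) := by
    unfold bil
    push_cast
    rw [wt2_cast, wt2_cast, hc]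
    push_cast
    congr 1
    refine Finset.sum_congr rfl fun i _ => Finset.sum_congr rfl fun j _ => ?_
    rw [ZMod.natCast_val, ZMod.cast_id]
  rw [h2, ZMod.val_natCast, ← neg_one_pow_eq_pow_mod_two, ← pow_add, ← pow_add,
    neg_one_pow_eq_pow_mod_two]
  conv_rhs => rw [neg_one_pow_eq_pow_mod_two]
  congr 1
  set a := wt2 f
  set b := wt2 g
  have h3 : (a * b) % 2 = ((a % 2) * (b % 2)) % 2 := Nat.mul_mod a b 2
  rcases Nat.mod_two_eq_zero_or_one a with ha | ha <;>
    rcases Nat.mod_two_eq_zero_or_one b with hb | hb <;> rw [ha, hb] at h3 <;> omega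

theorem chi_eq (f : ι → Fin q → ZMod 2) : chi f = 1 ∨ chi f = -1 := neg_one_pow_eq_or ℤ _

/-- The space of vectors with equal block sums. -/
def MM (ι : Type*) [Fintype ι] [DecidableEq ι] (q : ℕ) : Finset (ι → Fin q → ZMod 2) :=
  Finset.univ.filter (fun f => ∀ i, ∑ j, f i j = tot f)

theorem mem_MM {f : ι → Fin q → ZMod 2} : f ∈ MM ι q ↔ ∀ i, ∑ j, f i j = tot f := by
  simp [MM]

/-- The vector of a vertex at distance two. -/
def hvec (A : V → V → ℤ) (p : ι → Fin q → V) (y : V) (i : ι) (j : Fin q) : ZMod 2 :=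
  1 + (A y (p i j) : ZMod 2)

theorem cast_q (hq : q % 4 = 2) : (q : ZMod 2) = 0 := by
  rw [ZMod.natCast_eq_zero_iff]; omega

theorem two_zero : (1 : ZMod 2) + 1 = 0 := by decide

theorem add_self_z (a : ZMod 2) : a + a = 0 := by
  rcases zmod2_cases a with h | h <;> rw [h] <;> decide

theorem sum_hvec (h : PG A (q : ℤ)) (hB : Blk A o p) (hq : q % 4 = 2) {y : V} (hyo : o ≠ y)
    (hA : A o y = 0) (i : ι) : ∑ j, hvec A p y i j = 1 := by
  unfold hvec
  rw [Finset.sum_add_distrib]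
  have h1 := congrArg (Int.cast : ℤ → ZMod 2) (block_one h hB i hyo hA)
  push_cast at h1
  rw [h1]
  simp [cast_q hq]

theorem tot_hvec (h : PG A (q : ℤ)) (hB : Blk A o p) (hι : Fintype.card ι = q ^ 2 + 1)
    (hq : q % 4 = 2) {y : V} (hyo : o ≠ y) (hA : A o y = 0) : tot (hvec A p y) = 1 := by
  unfold tot
  simp_rw [sum_hvec h hB hq hyo hA]
  simp [hι, cast_q hq]

theorem bil_hvec (h : PG A (q : ℤ)) (hB : Blk A o p) (hι : Fintype.card ι = q ^ 2 + 1)
    (hq : q % 4 = 2) {y : V} (hyo : o ≠ y) (hA : A o y = 0) (f : ι → Fin q → ZMod 2) :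
    bil f (hvec A p y) = ∑ i, ∑ j, f i j * (A y (p i j) : ZMod 2) := by
  unfold bil
  rw [tot_hvec h hB hι hq hyo hA]
  simp only [hvec, mul_add, mul_one, Finset.sum_add_distrib]
  have : ∑ i, ∑ j, f i j = tot f := rfl
  rw [this, add_comm (tot f), add_assoc, add_self_z, add_zero]

theorem wt2_hvec (h : PG A (q : ℤ)) (hB : Blk A o p) (hι : Fintype.card ι = q ^ 2 + 1)
    {y : V} (hyo : o ≠ y) (hA : A o y = 0) :
    (wt2 (hvec A p y) : ℤ) = (q ^ 2 + 1) * (q - 1) := by
  unfold wt2 wt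
  push_cast
  have h1 : ∀ i j, ((hvec A p y i j).val : ℤ) = 1 - A y (p i j) := by
    intro i j
    unfold hvec
    rcases h.zero_one y (p i j) with h0 | h0 <;> rw [h0]
    · simp
      decide
    · have : (1 : ZMod 2) + ((1 : ℤ) : ZMod 2) = 0 := by decide
      rw [this]
      simp
  simp_rw [h1, Finset.sum_sub_distrib, block_one h hB _ hyo hA]
  simp [hι]
  ring

theorem chi_hvec (h : PG A (q : ℤ)) (hB : Blk A o p) (hι : Fintype.card ι = q ^ 2 + 1)
    (hq : q % 4 = 2) {y : V} (hyo : o ≠ y) (hA : A o y = 0) : chi (hvec A p y) = 1 := by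
  have h1 := wt2_hvec h hB hι hyo hA
  obtain ⟨k, hk⟩ : ∃ k : ℤ, (q : ℤ) = 4 * k + 2 := ⟨(q : ℤ) / 4, by omega⟩
  have h2 : (wt2 (hvec A p y) : ℤ) = 4 * (16 * k ^ 3 + 20 * k ^ 2 + 9 * k + 1) + 1 := by
    rw [h1, hk]; ring
  unfold chi
  apply Even.neg_one_pow
  rw [Nat.even_iff]
  omega

/-- Sums over the neighbours of `o`. -/
theorem sum_nbr (h : PG A (q : ℤ)) (hB : Blk A o p) (F : V → ℤ) :
    ∑ w, A o w * F w = ∑ i, ∑ j, F (p i j) := by
  have h0 : ∑ i, ∑ j, F (p i j) = ∑ x : ι × Fin q, F (p x.1 x.2) :=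
    (Fintype.sum_prod_type (fun x : ι × Fin q => F (p x.1 x.2))).symm
  rw [h0]
  have h1 : ∑ w, A o w * F w = ∑ w ∈ Finset.univ.filter (fun w => A o w = 1), F w := by
    rw [Finset.sum_filter]
    refine Finset.sum_congr rfl fun w _ => ?_
    rcases h.zero_one o w with h0 | h0 <;> rw [h0] <;> simp
  rw [h1]
  symm
  refine Finset.sum_bij (fun x _ => p x.1 x.2) ?_ ?_ ?_ ?_
  · intro x _
    simp [hB.adj_o]
  · intro x _ x' _ hx
    have := hB.inj _ _ _ _ hx
    exact Prod.ext this.1 this.2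
  · intro w hw
    simp only [Finset.mem_filter, Finset.mem_univ, true_and] at hw
    obtain ⟨i, j, hij⟩ := hB.surj w hw
    exact ⟨(i, j), Finset.mem_univ _, hij⟩
  · intro x _
    rfl

theorem odd_cast {n : ℤ} (hn : Odd n) : (n : ZMod 2) = 1 := by
  obtain ⟨k, hk⟩ := hn
  rw [hk]
  push_cast
  have : (2 : ZMod 2) = 0 := by decide
  rw [this]
  ring

theorem even_cast_iff (n : ℤ) : Even n ↔ (n : ZMod 2) = 0 := by
  rw [ZMod.intCast_eq_zero_iff_even]

theorem bil_hvec_hvec (h : PG A (q : ℤ)) (hB : Blk A o p) (hι : Fintype.card ι = q ^ 2 + 1)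
    (hq : q % 4 = 2) {y z : V} (hyo : o ≠ y) (hA : A o y = 0) (hzo : o ≠ z) (hA' : A o z = 0) :
    bil (hvec A p y) (hvec A p z) = 0 := by
  have hq1 : (1 : ℤ) ≤ (q : ℤ) := by omega
  have hqe : Even (q : ℤ) := by rw [Int.even_iff]; omega
  rw [bil_hvec h hB hι hq hzo hA']
  simp only [hvec, add_mul, one_mul, Finset.sum_add_distrib]
  have h1 : ∑ i, ∑ j, (A z (p i j) : ZMod 2) = 1 := by
    have h2 : ∀ i, ∑ j, (A z (p i j) : ZMod 2) = 1 := by
      intro i
      have h3 := congrArg (Int.cast : ℤ → ZMod 2) (block_one h hB i hzo hA')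
      push_cast at h3
      exact h3
    simp_rw [h2]
    simp [hι, cast_q hq]
  have h4 : ∑ i, ∑ j, ((A y (p i j) : ZMod 2) * (A z (p i j) : ZMod 2)) = 1 := by
    by_cases hyz : y = z
    · subst hyz
      rw [← h1]
      refine Finset.sum_congr rfl fun i _ => Finset.sum_congr rfl fun j _ => ?_
      rcases h.zero_one y (p i j) with h0 | h0 <;> rw [h0] <;> simp
    · have h5 := triple_odd h hq1 hqe hyo hzo hyz hA hA'
      have h6 : ∑ w, A o w * A y w * A z w = ∑ i, ∑ j, A y (p i j) * A z (p i j) := by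
        rw [← sum_nbr h hB (fun w => A y w * A z w)]
        exact Finset.sum_congr rfl fun w _ => by ring
      rw [h6] at h5
      have h7 := odd_cast h5
      push_cast at h7
      exact h7
  rw [h1, h4]
  exact two_zero

/-- Integer lifts of binary vectors. -/
theorem exists_lift (hq : 0 < q) {f : ι → Fin q → ZMod 2} (hf : f ∈ MM ι q) :
    ∃ (φ : ι → Fin q → ℤ) (s : ℤ), (∀ i, ∑ j, φ i j = s) ∧ (∀ i j, ((φ i j : ℤ) : ZMod 2) = f i j)
      ∧ ((s : ℤ) : ZMod 2) = tot f := by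
  rw [mem_MM] at hf
  refine ⟨fun i j => ((f i j).val : ℤ)
    + if j = ⟨0, hq⟩ then ((tot f).val : ℤ) - ∑ j', ((f i j').val : ℤ) else 0,
    ((tot f).val : ℤ), ?_, ?_, ?_⟩
  · intro i
    rw [Finset.sum_add_distrib]
    simp
  · intro i j
    have h1 : ((((tot f).val : ℤ) - ∑ j', ((f i j').val : ℤ) : ℤ) : ZMod 2) = 0 := by
      push_cast
      simp only [ZMod.natCast_val, ZMod.cast_id', id_eq]
      rw [hf i, sub_self]
    by_cases hj : j = ⟨0, hq⟩
    · simp only [hj, if_true]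
      rw [Int.cast_add, h1]
      simp
    · simp [hj]
  · simp

theorem even_G (h : PG A (q : ℤ)) (hB : Blk A o p) (hι : Fintype.card ι = q ^ 2 + 1)
    (hq : q % 4 = 2) {f : ι → Fin q → ZMod 2} {φ : ι → Fin q → ℤ} {s : ℤ}
    (hφ : ∀ i, ∑ j, φ i j = s) (hφf : ∀ i j, ((φ i j : ℤ) : ZMod 2) = f i j)
    (hf : ∀ y, o ≠ y → A o y = 0 → bil f (hvec A p y) = 0) (y : V) :
    Even (G A q (cvec o p φ s) y) := by
  have hqe : Even (q : ℤ) := by rw [Int.even_iff]; omega
  by_cases hy : o = y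
  · subst hy
    rw [G_cvec_o h hB hι hφ]
    exact ((hqe.mul_right _).mul_right _).neg
  · rcases h.zero_one o y with h0 | h1
    · rw [G_cvec_y h hB hι hφ hy h0]
      apply Even.sub
      · exact (hqe.mul_right _).mul_right _
      · apply Even.mul_left
        rw [even_cast_iff]
        have h2 := hf y hy h0
        rw [bil_hvec h hB hι hq hy h0] at h2
        rw [← h2]
        push_cast
        refine Finset.sum_congr rfl fun i _ => Finset.sum_congr rfl fun j _ => ?_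
        rw [hφf]
    · obtain ⟨i, j, hij⟩ := hB.surj y h1
      rw [← hij, G_cvec_p h hB hι hφ]
      exact (hqe.mul_right _).mul_right _

theorem gauss_MM_nonneg (h : PG A (q : ℤ)) (hB : Blk A o p) (hι : Fintype.card ι = q ^ 2 + 1)
    (hq : q % 4 = 2) : 0 ≤ ∑ f ∈ MM ι q, chi f := by
  classical
  set H : Finset (ι → Fin q → ZMod 2) :=
    (Finset.univ.filter (fun y => o ≠ y ∧ A o y = 0)).image (hvec A p) with hH
  have hmem : ∀ g ∈ H, ∃ y, o ≠ y ∧ A o y = 0 ∧ hvec A p y = g := by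
    intro g hg
    rw [hH, Finset.mem_image] at hg
    obtain ⟨y, hy, rfl⟩ := hg
    simp only [Finset.mem_filter, Finset.mem_univ, true_and] at hy
    exact ⟨y, hy.1, hy.2, rfl⟩
  have hmem' : ∀ y, o ≠ y → A o y = 0 → hvec A p y ∈ H := by
    intro y h1 h2
    rw [hH, Finset.mem_image]
    exact ⟨y, by simp [h1, h2], rfl⟩
  apply gauss_nonneg (fun f => ?_) chi bil bil_add_left chi_add chi_eq (MM ι q) ?_ H
  · intro g hg
    obtain ⟨y, h1, h2, rfl⟩ := hmem g hg
    rw [mem_MM]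
    intro i
    rw [sum_hvec h hB hq h1 h2, tot_hvec h hB hι hq h1 h2]
  · intro g hg
    obtain ⟨y, h1, h2, rfl⟩ := hmem g hg
    exact chi_hvec h hB hι hq h1 h2
  · intro g hg g' hg'
    obtain ⟨y, h1, h2, rfl⟩ := hmem g hg
    obtain ⟨z, h3, h4, rfl⟩ := hmem g' hg'
    exact bil_hvec_hvec h hB hι hq h1 h2 h3 h4
  · intro f hf g hg hfH hgH
    obtain ⟨φ, s, hφ, hφf, hs⟩ := exists_lift (by omega) hf
    obtain ⟨ψ, s', hψ, hψg, hs'⟩ := exists_lift (by omega) hg
    have e1 := even_G h hB hι hq hφ hφf (fun y h1 h2 => hfH _ (hmem' y h1 h2))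
    have e2 := even_G h hB hι hq hψ hψg (fun y h1 h2 => hgH _ (hmem' y h1 h2))
    have e3 := isotropic h hB hι hq hψ e1 e2
    rw [even_cast_iff] at e3
    push_cast at e3
    simp_rw [hφf, hψg] at e3
    rw [hs, hs', cast_q hq] at e3
    unfold bil
    linear_combination e3
  · intro f hf g hg
    rw [mem_MM] at hf hg ⊢
    intro i
    rw [tot_add, ← hf i, ← hg i, ← Finset.sum_add_distrib]
    rfl
  · funext i j
    exact add_self_z _

theorem chi_prod (hι : Fintype.card ι = q ^ 2 + 1) (hq : q % 4 = 2) (ε : ZMod 2)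
    {f : ι → Fin q → ZMod 2} (hf : ∀ i, ∑ j, f i j = ε) :
    chi f = ∏ i, (-1 : ℤ) ^ (wt (f i) / 2) := by
  rw [Finset.prod_pow_eq_pow_sum]
  unfold chi
  have h1 : ∀ i, wt (f i) = 2 * (wt (f i) / 2) + ε.val := by
    intro i
    have h2 := congrArg ZMod.val (wt_cast (f i))
    rw [hf i, ZMod.val_natCast] at h2
    omega
  have h3 : wt2 f = 2 * ∑ i, wt (f i) / 2 + (q ^ 2 + 1) * ε.val := by
    have : wt2 f = ∑ i, (2 * (wt (f i) / 2) + ε.val) := Finset.sum_congr rfl fun i _ => h1 i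
    rw [this, Finset.sum_add_distrib, ← Finset.mul_sum]
    simp [hι]
  rw [neg_one_pow_eq_pow_mod_two]
  conv_rhs => rw [neg_one_pow_eq_pow_mod_two]
  congr 1
  obtain ⟨k, hk⟩ : ∃ k : ℕ, q = 4 * k + 2 := ⟨q / 4, by omega⟩
  have hqq : q ^ 2 = 4 * (4 * k ^ 2 + 4 * k + 1) := by rw [hk]; ring
  have hε : ε.val = 0 ∨ ε.val = 1 := by
    rcases zmod2_cases ε with h0 | h0 <;> rw [h0]
    · left; rfl
    · right; rfl
  rcases hε with h0 | h0 <;> rw [h0] at h3 <;> omega

theorem sum_MM (hι : Fintype.card ι = q ^ 2 + 1) (hq : q % 4 = 2) :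
    ∑ f ∈ MM ι q, chi f = SS q 0 ^ (q ^ 2 + 1) + SS q 1 ^ (q ^ 2 + 1) := by
  classical
  have hpart : ∀ ε : ZMod 2, ∑ f ∈ Fintype.piFinset (fun _ : ι =>
      (Finset.univ : Finset (Fin q → ZMod 2)).filter (fun g => ∑ j, g j = ε)), chi f
      = SS q ε ^ (q ^ 2 + 1) := by
    intro ε
    have h1 : ∑ f ∈ Fintype.piFinset (fun _ : ι =>
        (Finset.univ : Finset (Fin q → ZMod 2)).filter (fun g => ∑ j, g j = ε)), chi f
        = ∑ f ∈ Fintype.piFinset (fun _ : ι =>
        (Finset.univ : Finset (Fin q → ZMod 2)).filter (fun g => ∑ j, g j = ε)),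
          ∏ i, (-1 : ℤ) ^ (wt (f i) / 2) := by
      refine Finset.sum_congr rfl fun f hf => ?_
      rw [Fintype.mem_piFinset] at hf
      exact chi_prod hι hq ε fun i => (Finset.mem_filter.1 (hf i)).2
    rw [h1, ← Finset.prod_univ_sum (fun _ : ι =>
        (Finset.univ : Finset (Fin q → ZMod 2)).filter (fun g => ∑ j, g j = ε))
        (fun _ g => (-1 : ℤ) ^ (wt g / 2))]
    rw [Finset.prod_const, Finset.card_univ, hι]
    rfl
  have htot : ∀ (ε : ZMod 2) (f : ι → Fin q → ZMod 2), (∀ i, ∑ j, f i j = ε) → tot f = ε := by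
    intro ε f hf
    unfold tot
    simp_rw [hf]
    simp [hι, cast_q hq]
  have hsplit : MM ι q = Fintype.piFinset (fun _ : ι =>
      (Finset.univ : Finset (Fin q → ZMod 2)).filter (fun g => ∑ j, g j = 0))
      ∪ Fintype.piFinset (fun _ : ι =>
      (Finset.univ : Finset (Fin q → ZMod 2)).filter (fun g => ∑ j, g j = 1)) := by
    ext f
    rw [Finset.mem_union, Fintype.mem_piFinset, Fintype.mem_piFinset, mem_MM]
    simp only [Finset.mem_filter, Finset.mem_univ, true_and]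
    constructor
    · intro hf
      rcases zmod2_cases (tot f) with h0 | h0
      · left; intro i; rw [hf i, h0]
      · right; intro i; rw [hf i, h0]
    · rintro (hf | hf) i
      · rw [hf i, htot 0 f hf]
      · rw [hf i, htot 1 f hf]
  rw [hsplit, Finset.sum_union, hpart, hpart]
  rw [Finset.disjoint_left]
  intro f h0 h1
  rw [Fintype.mem_piFinset] at h0 h1
  have e0 := htot 0 f fun i => (Finset.mem_filter.1 (h0 i)).2
  have e1 := htot 1 f fun i => (Finset.mem_filter.1 (h1 i)).2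
  rw [e0] at e1
  exact absurd e1 (by decide)

/-- The contradiction for `q = 6 (mod 8)`. -/
theorem core_false (h : PG A (q : ℤ)) (hB : Blk A o p) (hι : Fintype.card ι = q ^ 2 + 1)
    (hq : q % 8 = 6) : False := by
  have hq4 : q % 4 = 2 := by omega
  have h1 := gauss_MM_nonneg h hB hι hq4
  rw [sum_MM hι hq4] at h1
  obtain ⟨k, hk⟩ : ∃ k : ℕ, q = 8 * k + 6 := ⟨q / 8, by omega⟩
  have h2 := SS_six k
  rw [← hk] at h2
  rw [h2.1, h2.2] at h1
  have hodd : Odd (q ^ 2 + 1) := by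
    have : Even q := by rw [Nat.even_iff]; omega
    exact (this.pow_of_ne_zero two_ne_zero).add_one
  have h3 : (0 : ℤ) ^ (q ^ 2 + 1) = 0 := zero_pow (by omega)
  have h4 : (-(8 * 16 ^ k) : ℤ) ^ (q ^ 2 + 1) < 0 := by
    apply hodd.pow_neg
    have : (0 : ℤ) < 8 * 16 ^ k := by positivity
    linarith
  rw [h3] at h1
  linarith

end Run7.h709
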