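import Mathlib
import Pool.Agent.Run7.h709.Code

/-!
Existence of the block structure, and the passage from strongly regular graphs.
-/

set_option linter.unusedSectionVars false

open Finset

namespace Run7.h709

universe u

variable {V : Type u} [Fintype V] [DecidableEq V] {A : V → V → ℤ} {q : ℕ}

/-- The relation `equal or adjacent` on the neighbours of `o`. -/
def nbrSetoid (h : PG A (q : ℤ)) (hq : 1 ≤ q) (o : V) : Setoid {z : V // A o z = 1} where
  r z w := z = w ∨ A z.1 w.1 = 1
  iseqv := {
    refl := fun z => Or.inl rfl
    symm := by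
      rintro z w (h1 | h1)
      · exact Or.inl h1.symm
      · exact Or.inr (by rw [h.symm]; exact h1)
    trans := by
      rintro z w u (h1 | h1) (h2 | h2)
      · exact Or.inl (h1.trans h2)
      · subst h1; exact Or.inr h2
      · subst h2; exact Or.inr h1
      · by_cases hzu : z = u
        · exact Or.inl hzu
        · right
          exact adj_trans h (by exact_mod_cast hq) z.2 w.2 u.2 h1 h2
            (fun he => hzu (Subtype.ext he)) }

theorem exists_blk (h : PG A (q : ℤ)) (hq : 1 ≤ q) (o : V) :
    ∃ (ι : Type u) (_ : Fintype ι) (_ : DecidableEq ι) (p : ι → Fin q → V),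
      Fintype.card ι = q ^ 2 + 1 ∧ Blk A o p := by
  classical
  let S := nbrSetoid h hq o
  let Q := Quotient S
  have hfib : ∀ c : Q, Fintype.card {z : {z : V // A o z = 1} // (Quotient.mk S z) = c} = q := by
    intro c
    obtain ⟨z0, rfl⟩ := Quotient.exists_rep c
    have e1 : Fintype.card {z : {z : V // A o z = 1} // (Quotient.mk S z) = Quotient.mk S z0}
        = (Finset.univ.filter (fun z : V => A o z = 1 ∧ (z = z0.1 ∨ A z z0.1 = 1))).card := by
      rw [← Fintype.card_subtype]
      apply Fintype.card_congr
      refine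
        { toFun := fun z => ⟨z.1.1, z.1.2, ?_⟩
          invFun := fun z => ⟨⟨z.1, z.2.1⟩, ?_⟩
          left_inv := ?_
          right_inv := ?_ }
      · have := Quotient.exact z.2
        rcases this with h1 | h1
        · left; rw [h1]
        · right; exact h1
      · apply Quotient.sound
        rcases z.2.2 with h1 | h1
        · left; exact Subtype.ext h1
        · right; exact h1
      · intro z; rfl
      · intro z; rfl
    rw [e1]
    have e2 : ((Finset.univ.filter (fun z : V => A o z = 1 ∧ (z = z0.1 ∨ A z z0.1 = 1))).card : ℤ)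
        = ∑ z, (dl z0.1 z + A o z * A z z0.1) := by
      rw [Finset.card_filter]
      push_cast
      refine Finset.sum_congr rfl fun z _ => ?_
      by_cases hz : z = z0.1
      · subst hz
        rw [dl_self, h.diag, z0.2]
        simp
      · rw [dl_ne (Ne.symm hz)]
        rcases h.zero_one o z with h0 | h0 <;> rcases h.zero_one z z0.1 with h1 | h1 <;>
          simp [h0, h1, hz]
    rw [Finset.sum_add_distrib, h.sq, sum_dl, z0.2, dl_ne (ne_of_adj h z0.2)] at e2
    have e3 : ((Finset.univ.filter
        (fun z : V => A o z = 1 ∧ (z = z0.1 ∨ A z z0.1 = 1))).card : ℤ) = q := by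
      rw [e2]; ring
    exact_mod_cast e3
  have hN : (Fintype.card {z : V // A o z = 1} : ℤ) = q * (q ^ 2 + 1) := by
    rw [← h.deg o, Fintype.card_subtype, Finset.card_filter]
    push_cast
    refine Finset.sum_congr rfl fun z _ => ?_
    rcases h.zero_one o z with h0 | h0 <;> simp [h0]
  have hQ : Fintype.card Q = q ^ 2 + 1 := by
    have e1 : Fintype.card {z : V // A o z = 1}
        = ∑ c : Q, Fintype.card {z : {z : V // A o z = 1} // (Quotient.mk S z) = c} := by
      rw [← Fintype.card_sigma]
      exact Fintype.card_congr (Equiv.sigmaFiberEquiv (fun z => Quotient.mk S z)).symm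
    simp_rw [hfib] at e1
    rw [Finset.sum_const, Finset.card_univ, smul_eq_mul] at e1
    have e2 : (Fintype.card Q * q : ℤ) = q * (q ^ 2 + 1) := by
      rw [← hN, e1]; push_cast; ring
    have e3 : Fintype.card Q * q = (q ^ 2 + 1) * q := by
      have : ((Fintype.card Q * q : ℕ) : ℤ) = (((q ^ 2 + 1) * q : ℕ) : ℤ) := by
        push_cast; rw [e2]; ring
      exact_mod_cast this
    exact Nat.eq_of_mul_eq_mul_right (by omega) e3
  let e : ∀ c : Q, Fin q ≃ {z : {z : V // A o z = 1} // (Quotient.mk S z) = c} :=
    fun c => (Fintype.equivFinOfCardEq (hfib c)).symm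
  refine ⟨Q, inferInstance, inferInstance, fun c j => ((e c j).1).1, hQ, ?_⟩
  constructor
  · intro i j
    exact (e i j).1.2
  · intro z hz
    refine ⟨Quotient.mk S ⟨z, hz⟩, (e (Quotient.mk S ⟨z, hz⟩)).symm ⟨⟨z, hz⟩, rfl⟩, ?_⟩
    simp
  · intro i j i' j' hij
    have h1 : (e i j).1 = (e i' j').1 := Subtype.ext hij
    have h2 : i = i' := by
      rw [← (e i j).2, ← (e i' j').2, h1]
    subst h2
    refine ⟨rfl, ?_⟩
    exact (e i).injective (Subtype.ext h1)
  · intro i j j' hjj
    have h1 : Quotient.mk S (e i j).1 = Quotient.mk S (e i j').1 := by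
      rw [(e i j).2, (e i j').2]
    rcases Quotient.exact h1 with h2 | h2
    · exact absurd ((e i).injective (Subtype.ext h2)) hjj
    · exact h2
  · intro i i' j j' hii
    rcases h.zero_one (e i j).1.1 (e i' j').1.1 with h0 | h0
    · exact h0
    · exfalso
      apply hii
      rw [← (e i j).2, ← (e i' j').2]
      exact Quotient.sound (Or.inr h0)

/-- No pseudo-geometric graph for `q = 6 (mod 8)`, matrix form. -/
theorem no_PG (h : PG A (q : ℤ)) (hV : Nonempty V) (hq : q % 8 = 6) : False := by
  obtain ⟨o⟩ := hV
  obtain ⟨ι, _, _, p, hι, hB⟩ := exists_blk h (by omega) o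
  exact core_false h hB hι hq

/-- The adjacency data of a strongly regular graph. -/
theorem PG_of_srg {q : ℕ} (hq : 2 ≤ q) (G : SimpleGraph V) [DecidableRel G.Adj]
    (hG : G.IsSRGWith ((q + 1) * (q ^ 3 + 1)) (q * (q ^ 2 + 1)) (q - 1) (q ^ 2 + 1)) :
    PG (fun x y => if G.Adj x y then (1 : ℤ) else 0) (q : ℤ) := by
  constructor
  · intro x y
    by_cases hxy : G.Adj x y <;> simp [hxy]
  · intro x y
    simp [G.adj_comm]
  · intro x
    simp
  · rw [hG.card]; push_cast; ring
  · intro x
    have h1 := hG.regular x
    rw [← SimpleGraph.card_neighborFinset_eq_degree] at h1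
    have h2 : ∑ y, (if G.Adj x y then (1 : ℤ) else 0) = ((G.neighborFinset x).card : ℤ) := by
      rw [SimpleGraph.neighborFinset_eq_filter, Finset.card_filter]
      push_cast
      rfl
    rw [h2, h1]
    push_cast
    ring
  · intro x z
    have h2 : ∑ y, (if G.Adj x y then (1 : ℤ) else 0) * (if G.Adj y z then (1 : ℤ) else 0)
        = ((Finset.univ.filter (fun y => G.Adj x y ∧ G.Adj y z)).card : ℤ) := by
      rw [Finset.card_filter]
      push_cast
      refine Finset.sum_congr rfl fun y _ => ?_
      by_cases h1 : G.Adj x y <;> by_cases h2 : G.Adj y z <;> simp [h1, h2]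
    rw [h2]
    by_cases hxz : x = z
    · subst hxz
      have h1 := hG.regular x
      rw [← SimpleGraph.card_neighborFinset_eq_degree, SimpleGraph.neighborFinset_eq_filter] at h1
      have h3 : (Finset.univ.filter (fun y => G.Adj x y ∧ G.Adj y x))
          = Finset.univ.filter (fun y => G.Adj x y) := by
        ext y
        simp [G.adj_comm y x]
      rw [h3, h1, dl_self]
      simp
      ring
    · have hcn : (Finset.univ.filter (fun y => G.Adj x y ∧ G.Adj y z)).card
          = Fintype.card (G.commonNeighbors x z) := by
        rw [Fintype.card_subtype]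
        congr 1
        ext y
        simp [SimpleGraph.mem_commonNeighbors, G.adj_comm y z]
      rw [hcn, dl_ne hxz]
      by_cases hadj : G.Adj x z
      · rw [hG.of_adj x z hadj]
        simp only [hadj, if_true]
        rw [Nat.cast_sub (by omega)]
        push_cast
        ring
      · rw [hG.of_not_adj hxz hadj]
        simp only [hadj, if_false]
        push_cast
        ring

end Run7.h709
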